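import Mathlib

open Finset Filter Topology

namespace Pool.Agent.H289R2.AP4.FourTerm

/-- `A ⊆ F_p^n` contains no nontrivial `k`-term progression `x, x+y, …, x+(k-1)y` with `y ≠ 0`. -/
def APFree (k p n : ℕ) (A : Finset (Fin n → ZMod p)) : Prop :=
  ∀ x y : Fin n → ZMod p, (∀ i : ℕ, i < k → x + i • y ∈ A) → y = 0

/-- `r_k(F_p^n)`: the largest size of a subset of `F_p^n` without nontrivial `k`-term
progressions. -/
noncomputable def r (k p n : ℕ) : ℕ :=
  sSup {m : ℕ | ∃ A : Finset (Fin n → ZMod p), APFree k p n A ∧ A.card = m}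

/-- `λ_{k,p} = sup_{n ≥ 1} r_k(F_p^n)^{1/n}`. -/
noncomputable def lam (k p : ℕ) : ℝ :=
  ⨆ n : ℕ, (r k p (n + 1) : ℝ) ^ (1 / ((n : ℝ) + 1))

section general

variable {p : ℕ} [hpf : Fact p.Prime]

lemma card_le_r {k n : ℕ} {A : Finset (Fin n → ZMod p)} (hA : APFree k p n A) :
    A.card ≤ r k p n := by
  unfold r
  apply le_csSup
  · refine ⟨Fintype.card (Fin n → ZMod p), ?_⟩
    rintro m ⟨B, _, rfl⟩
    exact Finset.card_le_univ B
  · exact ⟨A, hA, rfl⟩

lemma r_le (k n : ℕ) : r k p n ≤ p ^ n := by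
  unfold r
  apply csSup_le'
  rintro m ⟨B, _, rfl⟩
  calc B.card ≤ Fintype.card (Fin n → ZMod p) := Finset.card_le_univ B
    _ = p ^ n := by simp [ZMod.card]

lemma le_lam (k n : ℕ) : (r k p (n + 1) : ℝ) ^ (1 / ((n : ℝ) + 1)) ≤ lam k p := by
  unfold lam
  refine le_ciSup (f := fun n : ℕ => (r k p (n + 1) : ℝ) ^ (1 / ((n : ℝ) + 1))) ?_ n
  refine ⟨(p : ℝ), ?_⟩
  rintro _ ⟨m, rfl⟩
  have h1 : (r k p (m + 1) : ℝ) ≤ (p : ℝ) ^ (m + 1) := by exact_mod_cast r_le k (m + 1)
  have h2 : (0 : ℝ) ≤ (r k p (m + 1) : ℝ) := by positivity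
  calc (r k p (m + 1) : ℝ) ^ (1 / ((m : ℝ) + 1))
      ≤ ((p : ℝ) ^ (m + 1)) ^ (1 / ((m : ℝ) + 1)) :=
        Real.rpow_le_rpow h2 h1 (by positivity)
    _ = (p : ℝ) := by
        have : ((m : ℝ) + 1) = ((m + 1 : ℕ) : ℝ) := by push_cast; ring
        rw [this, one_div, Real.pow_rpow_inv_natCast (by positivity) (by omega)]

/-- The growth-rate step: `M^n ≤ (C n + 1) r_k(F_p^n)` for all `n` implies `M ≤ λ_{k,p}`. -/
lemma le_lam_of_pow {k M C : ℕ} (hC : 0 < C)
    (h : ∀ n : ℕ, M ^ n ≤ r k p n * (C * n + 1)) : (M : ℝ) ≤ lam k p := by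
  have hlim : Tendsto (fun n : ℕ => (M : ℝ) / ((C : ℝ) * ((n : ℝ) + 1) + 1) ^ (1 / ((n : ℝ) + 1)))
      atTop (𝓝 ((M : ℝ) / 1)) := by
    apply Tendsto.div tendsto_const_nhds _ one_ne_zero
    have h1 := tendsto_rpow_div_mul_add (C : ℝ) 1 (-1) (by norm_num)
    have h2 : Tendsto (fun n : ℕ => (C : ℝ) * ((n : ℝ) + 1) + 1) atTop atTop := by
      apply tendsto_atTop_add_const_right
      apply Tendsto.const_mul_atTop (by exact_mod_cast hC)
      exact tendsto_atTop_add_const_right _ _ tendsto_natCast_atTop_atTop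
    have h3 := h1.comp h2
    refine h3.congr ?_
    intro n
    simp only [Function.comp]
    congr 1
    have hn : (n : ℝ) + 1 ≠ 0 := by positivity
    have hC' : (C : ℝ) ≠ 0 := by exact_mod_cast hC.ne'
    field_simp
    ring
  rw [div_one] at hlim
  refine le_of_tendsto' hlim ?_
  intro n
  refine le_trans ?_ (le_lam k n)
  have hn : (0 : ℝ) < (n : ℝ) + 1 := by positivity
  have hpos : (0 : ℝ) < (C : ℝ) * ((n : ℝ) + 1) + 1 := by positivity
  have hpos' : (0 : ℝ) < ((C : ℝ) * ((n : ℝ) + 1) + 1) ^ (1 / ((n : ℝ) + 1)) :=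
    Real.rpow_pos_of_pos hpos _
  rw [div_le_iff₀ hpos', ← Real.mul_rpow (by positivity) hpos.le]
  have h1 : ((M : ℝ)) ^ (n + 1) ≤ (r k p (n + 1) : ℝ) * ((C : ℝ) * ((n : ℝ) + 1) + 1) := by
    exact_mod_cast h (n + 1)
  calc (M : ℝ) = ((M : ℝ) ^ (n + 1)) ^ (1 / ((n : ℝ) + 1)) := by
        have : ((n : ℝ) + 1) = ((n + 1 : ℕ) : ℝ) := by push_cast; ring
        rw [this, one_div, Real.pow_rpow_inv_natCast (by positivity) (by omega)]
    _ ≤ _ := Real.rpow_le_rpow (by positivity) h1 (by positivity)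

/-- The lifting step: a set `S ⊆ F_p` with a weight `F` satisfying
`F(x) + F(x+3y) > F(x+y) + F(x+2y)` on all nontrivial 4-term progressions inside `S`
gives `λ_{4,p} ≥ |S|`. -/
lemma card_le_lam {C : ℕ} (hC : 0 < C) (S : Finset (ZMod p)) (F : ZMod p → ℕ)
    (hFC : ∀ x ∈ S, F x ≤ C)
    (hF : ∀ x y : ZMod p, x ∈ S → x + y ∈ S → x + 2 * y ∈ S → x + 3 * y ∈ S → y ≠ 0 →
      F (x + y) + F (x + 2 * y) < F x + F (x + 3 * y)) :
    (S.card : ℝ) ≤ lam 4 p := by
  refine le_lam_of_pow hC ?_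
  intro n
  have hcard : (Fintype.piFinset (fun _ : Fin n => S)).card = S.card ^ n := by
    simp [Fintype.card_piFinset]
  rw [← hcard]
  have hr : (C * n + 1) = (Finset.range (C * n + 1)).card := by simp
  rw [hr]
  refine Finset.card_le_mul_card_image_of_maps_to
    (f := fun x : Fin n → ZMod p => ∑ i, F (x i)) ?_ _ ?_
  · intro x hx
    rw [Fintype.mem_piFinset] at hx
    rw [Finset.mem_range]
    have : ∑ i, F (x i) ≤ ∑ _i : Fin n, C := Finset.sum_le_sum (fun i _ => hFC _ (hx i))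
    simp at this
    nlinarith
  · intro v _
    apply card_le_r
    intro x y hxy
    have h0 := hxy 0 (by norm_num)
    have h1 := hxy 1 (by norm_num)
    have h2 := hxy 2 (by norm_num)
    have h3 := hxy 3 (by norm_num)
    rw [Finset.mem_filter, Fintype.mem_piFinset] at h0 h1 h2 h3
    obtain ⟨m0, e0⟩ := h0
    obtain ⟨m1, e1⟩ := h1
    obtain ⟨m2, e2⟩ := h2
    obtain ⟨m3, e3⟩ := h3
    have q0 : ∀ i, (x + 0 • y) i = x i := fun i => by simp
    have q1 : ∀ i, (x + 1 • y) i = x i + y i := fun i => by simp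
    have q2 : ∀ i, (x + 2 • y) i = x i + 2 * y i := fun i => by simp
    have q3 : ∀ i, (x + 3 • y) i = x i + 3 * y i := fun i => by simp
    simp only [q0] at m0 e0
    simp only [q1] at m1 e1
    simp only [q2] at m2 e2
    simp only [q3] at m3 e3
    by_contra hy
    obtain ⟨j, hj⟩ : ∃ j, y j ≠ 0 := by
      by_contra hcon
      push Not at hcon
      exact hy (funext hcon)
    have hlt : ∑ i, (F (x i + y i) + F (x i + 2 * y i)) < ∑ i, (F (x i) + F (x i + 3 * y i)) := by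
      apply Finset.sum_lt_sum
      · intro i _
        by_cases hi : y i = 0
        · simp [hi]
        · exact (hF _ _ (m0 i) (m1 i) (m2 i) (m3 i) hi).le
      · exact ⟨j, Finset.mem_univ j, hF _ _ (m0 j) (m1 j) (m2 j) (m3 j) hj⟩
    rw [Finset.sum_add_distrib, Finset.sum_add_distrib, e0, e1, e2, e3] at hlt
    exact lt_irrefl _ hlt

end general

/-- The core inequality over the integers.  `b = 0, 1` is the parity of the long class. -/
lemma core (p a1 a2 b1 b2 β y0 y1 y2 y3 s1 s2 : ℤ) (hp : p % 2 = 1) (hp0 : 0 < p)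
    (h1 : 3 * (b1 + b2) < 2 * p) (h2 : a2 + 2 * a1 + b2 < p) (h3 : a1 + 2 * a2 + b1 < p)
    (hab1 : a1 ≤ b1) (hab2 : a2 ≤ b2) (ha1 : 0 ≤ a1) (ha2 : 0 ≤ a2)
    (hb1 : b1 < p) (hb2 : b2 < p)
    (m0 : (-b1 ≤ y0 ∧ y0 ≤ b2 ∧ (y0 + β) % 2 = 0) ∨ (-a1 ≤ y0 ∧ y0 ≤ a2 ∧ (y0 + β) % 2 = 1))
    (m1 : (-b1 ≤ y1 ∧ y1 ≤ b2 ∧ (y1 + β) % 2 = 0) ∨ (-a1 ≤ y1 ∧ y1 ≤ a2 ∧ (y1 + β) % 2 = 1))
    (m2 : (-b1 ≤ y2 ∧ y2 ≤ b2 ∧ (y2 + β) % 2 = 0) ∨ (-a1 ≤ y2 ∧ y2 ≤ a2 ∧ (y2 + β) % 2 = 1))
    (m3 : (-b1 ≤ y3 ∧ y3 ≤ b2 ∧ (y3 + β) % 2 = 0) ∨ (-a1 ≤ y3 ∧ y3 ≤ a2 ∧ (y3 + β) % 2 = 1))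
    (e1 : y0 - 2 * y1 + y2 = s1 * p) (e2 : y1 - 2 * y2 + y3 = s2 * p) (hne : y0 ≠ y1) :
    (y1 ^ 2 + p ^ 2 * ((y1 + β) % 2)) + (y2 ^ 2 + p ^ 2 * ((y2 + β) % 2)) <
      (y0 ^ 2 + p ^ 2 * ((y0 + β) % 2)) + (y3 ^ 2 + p ^ 2 * ((y3 + β) % 2)) := by
  -- crude bounds
  have c0 : -b1 ≤ y0 ∧ y0 ≤ b2 := by rcases m0 with h | h <;> omega
  have c1 : -b1 ≤ y1 ∧ y1 ≤ b2 := by rcases m1 with h | h <;> omega
  have c2 : -b1 ≤ y2 ∧ y2 ≤ b2 := by rcases m2 with h | h <;> omega
  have c3 : -b1 ≤ y3 ∧ y3 ≤ b2 := by rcases m3 with h | h <;> omega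
  have hs1 : s1 = -1 ∨ s1 = 0 ∨ s1 = 1 := by
    have u : s1 * p < 2 * p := by omega
    have l : (-2) * p < s1 * p := by omega
    have u' : s1 < 2 := lt_of_mul_lt_mul_right u hp0.le
    have l' : -2 < s1 := lt_of_mul_lt_mul_right l hp0.le
    omega
  have hs2 : s2 = -1 ∨ s2 = 0 ∨ s2 = 1 := by
    have u : s2 * p < 2 * p := by omega
    have l : (-2) * p < s2 * p := by omega
    have u' : s2 < 2 := lt_of_mul_lt_mul_right u hp0.le
    have l' : -2 < s2 := lt_of_mul_lt_mul_right l hp0.le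
    omega
  have key : (s1 = 0 ∧ s2 = 0) ∨
      ((y0 + β) % 2 = 1 ∧ (y1 + β) % 2 = 0 ∧ (y2 + β) % 2 = 0 ∧ (y3 + β) % 2 = 1) := by
    rcases hs1 with rfl | rfl | rfl <;> rcases hs2 with rfl | rfl | rfl <;>
      rcases m0 with m0 | m0 <;> rcases m1 with m1 | m1 <;> rcases m2 with m2 | m2 <;>
      rcases m3 with m3 | m3 <;> omega
  rcases key with ⟨rfl, rfl⟩ | ⟨k0, k1, k2, k3⟩
  · have hy2 : y2 = 2 * y1 - y0 := by omega
    have hy3 : y3 = 3 * y1 - 2 * y0 := by omega
    have t2 : (y2 + β) % 2 = (y0 + β) % 2 := by omega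
    have t3 : (y3 + β) % 2 = (y1 + β) % 2 := by omega
    rw [t2, t3, hy2, hy3]
    have : 0 < (y1 - y0) ^ 2 := by
      have : y1 - y0 ≠ 0 := by omega
      positivity
    nlinarith
  · rw [k0, k1, k2, k3]
    have q1 : y1 ^ 2 < p ^ 2 := by
      have : |y1| < p := by rw [abs_lt]; omega
      exact sq_lt_sq' (by linarith [(abs_lt.mp this).1]) (abs_lt.mp this).2
    have q2 : y2 ^ 2 < p ^ 2 := by
      have : |y2| < p := by rw [abs_lt]; omega
      exact sq_lt_sq' (by linarith [(abs_lt.mp this).1]) (abs_lt.mp this).2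
    nlinarith [sq_nonneg y0, sq_nonneg y3]


/-- The two-class set: `|S| = nb + na`, where the long class is
`-b1, -b1+2, …, -b1+2(nb-1)` and the short class `-a1, -a1+2, …, -a1+2(na-1)`. -/
lemma block {p : ℕ} [hpf : Fact p.Prime] (a1 a2 b1 b2 β : ℤ) (na nb : ℕ)
    (hp : (p : ℤ) % 2 = 1)
    (h1 : 3 * (b1 + b2) < 2 * p) (h2 : a2 + 2 * a1 + b2 < p) (h3 : a1 + 2 * a2 + b1 < p)
    (hab1 : a1 ≤ b1) (hab2 : a2 ≤ b2) (ha1 : 0 ≤ a1) (ha2 : 0 ≤ a2)
    (hb1 : 2 * b1 < p) (hb2 : 2 * b2 < p)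
    (hpb : (b1 + β) % 2 = 0) (hpa : (a1 + β) % 2 = 1)
    (hnb : b1 + b2 = 2 * ((nb : ℤ) - 1)) (hna : a1 + a2 = 2 * ((na : ℤ) - 1)) :
    ((na + nb : ℕ) : ℝ) ≤ lam 4 p := by
  classical
  have hp0 : (0 : ℤ) < p := by exact_mod_cast hpf.out.pos
  let P : ℤ → Prop := fun y =>
    (-b1 ≤ y ∧ y ≤ b2 ∧ (y + β) % 2 = 0) ∨ (-a1 ≤ y ∧ y ≤ a2 ∧ (y + β) % 2 = 1)
  let S : Finset (ZMod p) := Finset.univ.filter (fun v => P v.valMinAbs)
  let F : ZMod p → ℕ := fun v =>
    (v.valMinAbs ^ 2 + (p : ℤ) ^ 2 * ((v.valMinAbs + β) % 2)).toNat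
  have hFz : ∀ v : ZMod p,
      ((F v : ℕ) : ℤ) = v.valMinAbs ^ 2 + (p : ℤ) ^ 2 * ((v.valMinAbs + β) % 2) := by
    intro v
    apply Int.toNat_of_nonneg
    have : 0 ≤ (v.valMinAbs + β) % 2 := Int.emod_nonneg _ (by norm_num)
    positivity
  have hcard : na + nb ≤ S.card := by
    let T : Finset ℤ := (Finset.range nb).image (fun i : ℕ => -b1 + 2 * (i : ℤ)) ∪
      (Finset.range na).image (fun i : ℕ => -a1 + 2 * (i : ℤ))
    have hT : T.card = nb + na := by
      rw [Finset.card_union_of_disjoint, Finset.card_image_of_injective,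
        Finset.card_image_of_injective, Finset.card_range, Finset.card_range]
      · intro i j hij
        simp only at hij
        omega
      · intro i j hij
        simp only at hij
        omega
      · rw [Finset.disjoint_left]
        intro z hz hz'
        rw [Finset.mem_image] at hz hz'
        obtain ⟨i, _, hi⟩ := hz
        obtain ⟨j, _, hj⟩ := hz'
        omega
    have hTP : ∀ z ∈ T, P z ∧ 2 * z < p ∧ -(p : ℤ) < 2 * z := by
      intro z hz
      rw [Finset.mem_union, Finset.mem_image, Finset.mem_image] at hz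
      rcases hz with ⟨i, hi, hz⟩ | ⟨i, hi, hz⟩
      · rw [Finset.mem_range] at hi
        refine ⟨Or.inl ?_, ?_, ?_⟩ <;> omega
      · rw [Finset.mem_range] at hi
        refine ⟨Or.inr ?_, ?_, ?_⟩ <;> omega
    have hval : ∀ z ∈ T, ((z : ZMod p)).valMinAbs = z := by
      intro z hz
      have : NeZero p := ⟨hpf.out.ne_zero⟩
      rw [ZMod.valMinAbs_spec]
      refine ⟨rfl, ?_, ?_⟩
      · have := (hTP z hz).2.2
        omega
      · have := (hTP z hz).2.1
        omega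
    have himg : T.image (fun z : ℤ => (z : ZMod p)) ⊆ S := by
      intro v hv
      rw [Finset.mem_image] at hv
      obtain ⟨z, hz, rfl⟩ := hv
      simp only [S, Finset.mem_filter, Finset.mem_univ, true_and]
      rw [hval z hz]
      exact (hTP z hz).1
    calc na + nb = T.card := by rw [hT]; omega
      _ = (T.image (fun z : ℤ => (z : ZMod p))).card := by
          rw [Finset.card_image_of_injOn]
          intro z hz w hw hzw
          have := congrArg ZMod.valMinAbs hzw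
          simp only at this
          rwa [hval z hz, hval w hw] at this
      _ ≤ S.card := Finset.card_le_card himg
  have hle : (S.card : ℝ) ≤ lam 4 p := by
    refine card_le_lam (C := 2 * p ^ 2) (by have := hpf.out.pos; positivity) S F ?_ ?_
    · intro v _
      have h := hFz v
      have h1 : (v.valMinAbs + β) % 2 ≤ 1 := by omega
      have h2 : v.valMinAbs ^ 2 ≤ (p : ℤ) ^ 2 := by
        have := ZMod.natAbs_valMinAbs_le v
        have h3 : |v.valMinAbs| ≤ (p : ℤ) := by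
          rw [Int.abs_eq_natAbs]
          have : v.valMinAbs.natAbs ≤ p := le_trans this (Nat.div_le_self p 2)
          exact_mod_cast this
        exact sq_le_sq' (by linarith [(abs_le.mp h3).1]) (abs_le.mp h3).2
      have : ((F v : ℕ) : ℤ) ≤ ((2 * p ^ 2 : ℕ) : ℤ) := by
        rw [h]
        push_cast
        nlinarith [sq_nonneg (p : ℤ)]
      exact_mod_cast this
    · intro x y k0 k1 k2 k3 hy
      simp only [S, Finset.mem_filter, Finset.mem_univ, true_and, P] at k0 k1 k2 k3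
      have d1 : (p : ℤ) ∣ x.valMinAbs - 2 * (x + y).valMinAbs + (x + 2 * y).valMinAbs := by
        rw [← ZMod.intCast_zmod_eq_zero_iff_dvd]
        push_cast
        ring
      have d2 : (p : ℤ) ∣
          (x + y).valMinAbs - 2 * (x + 2 * y).valMinAbs + (x + 3 * y).valMinAbs := by
        rw [← ZMod.intCast_zmod_eq_zero_iff_dvd]
        push_cast
        ring
      obtain ⟨s1, e1⟩ := d1
      obtain ⟨s2, e2⟩ := d2
      have hne : x.valMinAbs ≠ (x + y).valMinAbs := by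
        intro h
        have := congrArg (fun z : ℤ => (z : ZMod p)) h
        simp only [ZMod.coe_valMinAbs] at this
        exact hy (by simpa using this.symm)
      have := core (p : ℤ) a1 a2 b1 b2 β _ _ _ _ s1 s2 hp hp0 h1 h2 h3 hab1 hab2 ha1 ha2
        (by omega) (by omega) k0 k1 k2 k3 (by rw [e1]; ring) (by rw [e2]; ring) hne
      have h' : ((F (x + y) : ℕ) : ℤ) + ((F (x + 2 * y) : ℕ) : ℤ) <
          ((F x : ℕ) : ℤ) + ((F (x + 3 * y) : ℕ) : ℤ) := by
        rw [hFz, hFz, hFz, hFz]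
        exact this
      exact_mod_cast h'
  refine le_trans ?_ hle
  exact_mod_cast hcard

/-- For every prime `p ≥ 5`, `λ_{4,p} ≥ ⌊5(p+2)/9⌋`. -/
theorem result (p : ℕ) [Fact p.Prime] (hp5 : 5 ≤ p) :
    ((5 * (p + 2) / 9 : ℕ) : ℝ) ≤ lam 4 p := by
  have hpr : p.Prime := Fact.out
  have hodd : p % 2 = 1 := by
    rcases hpr.eq_two_or_odd with h | h
    · omega
    · exact h
  have h3 : p % 3 ≠ 0 := by
    intro h
    have : 3 ∣ p := Nat.dvd_of_mod_eq_zero h
    have := (Nat.prime_dvd_prime_iff_eq Nat.prime_three hpr).mp this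
    omega
  have hz : (p : ℤ) % 2 = 1 := by omega
  have hcases : p % 18 = 1 ∨ p % 18 = 5 ∨ p % 18 = 7 ∨ p % 18 = 11 ∨ p % 18 = 13 ∨
      p % 18 = 17 := by omega
  obtain ⟨t, ht⟩ : ∃ t : ℕ, p / 18 = t := ⟨_, rfl⟩
  rcases hcases with h | h | h | h | h | h
  · have hpt : p = 18 * t + 1 := by omega
    have ht1 : 1 ≤ t := by omega
    have hM : 5 * (p + 2) / 9 = (4 * t + 1) + 6 * t := by omega
    rw [hM]
    exact block (4 * t - 1) (4 * t + 1) (6 * t - 2) (6 * t) 0 _ _ hz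
      (by omega) (by omega) (by omega) (by omega) (by omega) (by omega) (by omega) (by omega)
      (by omega) (by omega) (by omega) (by omega) (by omega)
  · have hpt : p = 18 * t + 5 := by omega
    rcases Nat.eq_zero_or_pos t with ht0 | ht1
    · have hp' : 5 * (p + 2) / 9 = 1 + 2 := by omega
      rw [hp']
      exact block 0 0 1 1 1 _ _ hz
        (by omega) (by omega) (by omega) (by omega) (by omega) (by omega) (by omega) (by omega)
        (by omega) (by omega) (by omega) (by omega) (by omega)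
    · have hM' : 5 * (p + 2) / 9 = (4 * t + 2) + (6 * t + 1) := by omega
      rw [hM']
      exact block (4 * t - 1) (4 * t + 3) (6 * t - 2) (6 * t + 2) 0 _ _ hz
        (by omega) (by omega) (by omega) (by omega) (by omega) (by omega) (by omega) (by omega)
        (by omega) (by omega) (by omega) (by push_cast; omega) (by push_cast; omega)
  · have hpt : p = 18 * t + 7 := by omega
    have hM : 5 * (p + 2) / 9 = (4 * t + 2) + (6 * t + 3) := by omega
    rw [hM]
    exact block (4 * t + 1) (4 * t + 1) (6 * t + 2) (6 * t + 2) 0 _ _ hz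
      (by omega) (by omega) (by omega) (by omega) (by omega) (by omega) (by omega) (by omega)
      (by omega) (by omega) (by omega) (by push_cast; omega) (by push_cast; omega)
  · have hpt : p = 18 * t + 11 := by omega
    have hM : 5 * (p + 2) / 9 = (4 * t + 3) + (6 * t + 4) := by omega
    rw [hM]
    exact block (4 * t + 1) (4 * t + 3) (6 * t + 2) (6 * t + 4) 0 _ _ hz
      (by omega) (by omega) (by omega) (by omega) (by omega) (by omega) (by omega) (by omega)
      (by omega) (by omega) (by omega) (by push_cast; omega) (by push_cast; omega)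
  · have hpt : p = 18 * t + 13 := by omega
    have hM : 5 * (p + 2) / 9 = (4 * t + 3) + (6 * t + 5) := by omega
    rw [hM]
    exact block (4 * t + 1) (4 * t + 3) (6 * t + 2) (6 * t + 6) 0 _ _ hz
      (by omega) (by omega) (by omega) (by omega) (by omega) (by omega) (by omega) (by omega)
      (by omega) (by omega) (by omega) (by push_cast; omega) (by push_cast; omega)
  · have hpt : p = 18 * t + 17 := by omega
    have hM : 5 * (p + 2) / 9 = (4 * t + 4) + (6 * t + 6) := by omega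
    rw [hM]
    exact block (4 * t + 3) (4 * t + 3) (6 * t + 4) (6 * t + 6) 0 _ _ hz
      (by omega) (by omega) (by omega) (by omega) (by omega) (by omega) (by omega) (by omega)
      (by omega) (by omega) (by omega) (by push_cast; omega) (by push_cast; omega)

end Pool.Agent.H289R2.AP4.FourTerm
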